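import Pool.Agent.E8helper73.Sch.Step

/-!
Under CH: a Menger family of functions whose sets of small partial sums are pairwise almost
disjoint, for every bound from some point of the family on.
-/

namespace Pool.Agent.E8helper73.Sch

open Set Filter Cardinal Pool.Agent.H752R3

/-- Recursion through a countably closed preorder, where the requirement at a stage may refer to a
common lower bound of the earlier stages. -/
theorem recursion3 {ι : Type*} [LinearOrder ι] [WellFoundedLT ι]
    (hcount : ∀ a : ι, (Set.Iio a).Countable)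
    {P Q : Type*} (le : P → P → Prop) (hrefl : ∀ p, le p p)
    (htrans : ∀ p q r, le p q → le q r → le p r) [Nonempty P] [Nonempty Q]
    (hclosed : ∀ p : ℕ → P, (∀ n, le (p (n + 1)) (p n)) → ∃ q, ∀ n, le q (p n))
    (St : ι → P → P → Q → Prop) (hst : ∀ a p, ∃ q x, le q p ∧ St a p q x) :
    ∃ (F0 F : ι → P) (X : ι → Q), (∀ a, le (F a) (F0 a) ∧ St a (F0 a) (F a) (X a)) ∧
      ∀ b a, b < a → le (F0 a) (F b) := by
  classical
  let step : ∀ a : ι, (∀ b : ι, b < a → P × P × Q) → P × P × Q := fun a f =>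
    if h : ∃ t : P × P × Q, (∀ b (hb : b < a), le t.1 (f b hb).2.1) ∧ le t.2.1 t.1 ∧
      St a t.1 t.2.1 t.2.2 then h.choose
    else (Classical.arbitrary P, Classical.arbitrary P, Classical.arbitrary Q)
  let F : ι → P × P × Q := (wellFounded_lt (α := ι)).fix step
  have hF : ∀ a, F a = step a (fun b _ => F b) := fun a =>
    (wellFounded_lt (α := ι)).fix_eq step a
  have key : ∀ a, (∀ b, b < a → le (F a).1 (F b).2.1) ∧ le (F a).2.1 (F a).1 ∧
      St a (F a).1 (F a).2.1 (F a).2.2 := by
    intro a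
    induction a using WellFoundedLT.induction with
    | ind a ih =>
      have hex : ∃ t : P × P × Q, (∀ b (_ : b < a), le t.1 (F b).2.1) ∧ le t.2.1 t.1 ∧
          St a t.1 t.2.1 t.2.2 := by
        have hlow : ∃ q0, ∀ b, b < a → le q0 (F b).2.1 := by
          rcases (Set.Iio a).eq_empty_or_nonempty with he | hne
          · refine ⟨Classical.arbitrary P, fun b hb => ?_⟩
            have : b ∈ Set.Iio a := hb
            rw [he] at this
            exact absurd this (Set.notMem_empty b)
          · obtain ⟨e, he⟩ := (hcount a).exists_eq_range hne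
            have hea : ∀ n, e n < a := fun n => by
              have : e n ∈ Set.Iio a := by rw [he]; exact ⟨n, rfl⟩
              exact this
            let m : ℕ → ι := fun n => Nat.rec (e 0) (fun k x => max x (e (k + 1))) n
            have hm0 : m 0 = e 0 := rfl
            have hms : ∀ n, m (n + 1) = max (m n) (e (n + 1)) := fun n => rfl
            have hma : ∀ n, m n < a := by
              intro n
              induction n with
              | zero => exact hea 0
              | succ n ihn => rw [hms]; exact max_lt ihn (hea _)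
            have hem : ∀ n, e n ≤ m n := by
              intro n
              cases n with
              | zero => exact le_refl _
              | succ n => rw [hms]; exact le_max_right _ _
            have hle : ∀ b c, b ≤ c → c < a → le (F c).2.1 (F b).2.1 := by
              intro b c hbc hca
              rcases hbc.eq_or_lt with h | h
              · subst h; exact hrefl _
              · exact htrans _ _ _ (ih c hca).2.1 ((ih c hca).1 b h)
            obtain ⟨q, hq⟩ := hclosed (fun n => (F (m n)).2.1) (fun n => by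
              apply hle
              · rw [hms]; exact le_max_left _ _
              · exact hma (n + 1))
            refine ⟨q, fun b hb => ?_⟩
            have : b ∈ Set.Iio a := hb
            rw [he] at this
            obtain ⟨n, rfl⟩ := this
            exact htrans _ _ _ (hq n) (hle _ _ (hem n) (hma n))
        obtain ⟨q0, hq0⟩ := hlow
        obtain ⟨q, x, hq, hqR⟩ := hst a q0
        exact ⟨(q0, q, x), fun b hb => hq0 b hb, hq, hqR⟩
      have hstep : F a = hex.choose := by
        rw [hF]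
        exact dif_pos hex
      rw [hstep]
      exact hex.choose_spec
  exact ⟨fun a => (F a).1, fun a => (F a).2.1, fun a => (F a).2.2,
    fun a => ⟨(key a).2.1, (key a).2.2⟩, fun b a h => (key a).1 b h⟩

/-- The requirement at one stage. -/
def Stage (E : ℕ → ℕ) (v : ℕ → ℕ → List ℕ) (p q : Cond) (x : ℕ → ℕ) : Prop :=
  (∀ᶠ n in atTop, p.c n ≤ x n) ∧ (∀ d ∈ q.D, x ∈ d) ∧ (∀ n, psum x n < E n → E n ≤ q.c n) ∧
    ((∃ n, ∀ j, x ∉ Cyl (v n j)) ∨
      ∃ g : ℕ → ℕ, ∀ m, {x : ℕ → ℕ | ∃ n ≥ m, ∃ j < g n, x ∈ Cyl (v n j)} ∈ q.D)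

/-- The step lemma for conditions. -/
theorem exists_step_cond (p : Cond) (E : ℕ → ℕ) (u : ℕ → ℕ) (k : ℕ) :
    ∃ (q : Cond) (x : ℕ → ℕ), Cond.le q p ∧ x ∈ Cone p.c u k ∧ (∀ d ∈ q.D, x ∈ d) ∧
      (∀ n, psum x n < E n → E n ≤ q.c n) ∧ p.D ⊆ q.D := by
  have hE : (insert Set.univ p.D).Countable := p.cnt.insert _
  obtain ⟨D, hD⟩ := hE.exists_eq_range ⟨Set.univ, Set.mem_insert _ _⟩
  have hDE : ∀ j, D j ∈ insert Set.univ p.D := fun j => by rw [hD]; exact ⟨j, rfl⟩
  have hopen : ∀ j, IsOpen (D j) := by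
    intro j
    rcases hDE j with h | h
    · rw [h]; exact isOpen_univ
    · exact p.opn _ h
  have hgood : ∀ j, Good (D j) p.c := by
    intro j
    rcases hDE j with h | h
    · rw [h]; exact good_univ _
    · exact p.good _ h
  obtain ⟨f, c', h1, h2, h3, h4, h5⟩ := exists_step hopen hgood E u k
  refine ⟨⟨c', insert Set.univ p.D, hE, ?_, ?_⟩, f, ⟨?_, subset_insert _ _⟩, h1, ?_, h4,
    subset_insert _ _⟩
  · intro d hd
    rw [hD] at hd
    obtain ⟨j, rfl⟩ := hd
    exact hopen j
  · intro d hd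
    rw [hD] at hd
    obtain ⟨j, rfl⟩ := hd
    exact h5 j
  · exact Eventually.of_forall h3
  · intro d hd
    have hd' : d ∈ insert Set.univ p.D := hd
    rw [hD] at hd'
    obtain ⟨j, rfl⟩ := hd'
    exact h2 j

theorem exists_stage (p : Cond) (E : ℕ → ℕ) (v : ℕ → ℕ → List ℕ) :
    ∃ (q : Cond) (x : ℕ → ℕ), Cond.le q p ∧ Stage E v p q x := by
  by_cases hcase : ∃ n u k, (⋃ j, Cyl (v n j)) ∩ Cone p.c u k = ∅
  · obtain ⟨n, u, k, hnuk⟩ := hcase
    obtain ⟨q, x, h1, h2, h3, h4, -⟩ := exists_step_cond p E u k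
    refine ⟨q, x, h1, eventually_atTop.2 ⟨k, fun i hi => h2.2 i hi⟩, h3, h4,
      Or.inl ⟨n, fun j hj => ?_⟩⟩
    have : x ∈ (⋃ j, Cyl (v n j)) ∩ Cone p.c u k := ⟨mem_iUnion.2 ⟨j, hj⟩, h2⟩
    rw [hnuk] at this
    exact this
  · push Not at hcase
    -- enumerate finite sequences
    obtain ⟨s, hs⟩ : ∃ s : ℕ → List ℕ, Function.Surjective s := exists_surjective_nat _
    have h1 : ∀ n i, ∃ g, ((⋃ j, ⋃ (_ : j < g), Cyl (v n j)) ∩
        Cone p.c (fun m => (s i).getD m 0) (s i).length).Nonempty := by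
      intro n i
      obtain ⟨x, hx1, hx2⟩ := hcase n (fun m => (s i).getD m 0) (s i).length
      obtain ⟨j, hj⟩ := mem_iUnion.1 hx1
      exact ⟨j + 1, x, mem_iUnion₂.2 ⟨j, Nat.lt_succ_self j, hj⟩, hx2⟩
    choose G hG using h1
    let g : ℕ → ℕ := fun n => (Finset.range (n + 1)).sup (G n)
    have hg : ∀ n, ∀ i ≤ n, G n i ≤ g n := fun n i hi =>
      Finset.le_sup (f := G n) (Finset.mem_range.2 (Nat.lt_succ_of_le hi))
    let Dm : ℕ → Set (ℕ → ℕ) := fun m => {x | ∃ n ≥ m, ∃ j < g n, x ∈ Cyl (v n j)}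
    have hDmopen : ∀ m, IsOpen (Dm m) := by
      intro m
      have : Dm m = ⋃ n, ⋃ (_ : n ≥ m), ⋃ j, ⋃ (_ : j < g n), Cyl (v n j) := by
        ext x; simp [Dm]
      rw [this]
      exact isOpen_iUnion fun n => isOpen_iUnion fun _ => isOpen_iUnion fun j =>
        isOpen_iUnion fun _ => isOpen_Cyl _
    have hDmgood : ∀ m, Good (Dm m) p.c := by
      intro m u k
      obtain ⟨i, hi⟩ := hs (List.ofFn (fun i : Fin k => u i))
      set n := max m i with hn
      obtain ⟨x, hx1, hx2⟩ := hG n i
      obtain ⟨j, hj, hxj⟩ := mem_iUnion₂.1 hx1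
      refine ⟨x, ⟨n, le_max_left _ _, j, lt_of_lt_of_le hj (hg n i (le_max_right _ _)), hxj⟩,
        ?_, ?_⟩
      · intro l hl
        have hlen : (s i).length = k := by rw [hi]; simp
        rw [hx2.1 l (by rw [hlen]; exact hl), hi]
        simp [List.getD_eq_getElem?_getD, hl]
      · intro l hl
        have hlen : (s i).length = k := by rw [hi]; simp
        exact hx2.2 l (by rw [hlen]; exact hl)
    let p' : Cond := ⟨p.c, p.D ∪ range Dm, p.cnt.union (countable_range _), by
      rintro d (hd | ⟨m, rfl⟩)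
      · exact p.opn d hd
      · exact hDmopen m, by
      rintro d (hd | ⟨m, rfl⟩)
      · exact p.good d hd
      · exact hDmgood m⟩
    obtain ⟨q, x, h1, h2, h3, h4, h5⟩ := exists_step_cond p' E (fun _ => 0) 0
    refine ⟨q, x, ⟨h1.1, (subset_union_left.trans h5 : p.D ⊆ q.D)⟩,
      eventually_atTop.2 ⟨0, fun i hi => h2.2 i hi⟩, h3, h4, Or.inr ⟨g, fun m => ?_⟩⟩
    exact h5 (Or.inr ⟨m, rfl⟩)

/-- The index set `ω₁`. -/
abbrev Om : Type := (ℵ₁ : Cardinal.{0}).ord.ToType

/-- **The family.**  Under CH there are functions `f a`, `E a` (`a < ω₁`) such that every function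
is eventually below all `E a` with `a` large; for `a < a'`, eventually `E a n ≤ f a' n` whenever
the partial sum of `f a` is below `E a n`; and the set of all `f a` is Menger. -/
theorem exists_family (CH : (ℵ₁ : Cardinal.{0}) = 𝔠) :
    ∃ f E : Om → ℕ → ℕ,
      (∀ b : ℕ → ℕ, ∃ a, ∀ a', a ≤ a' → ∀ᶠ n in atTop, b n ≤ E a' n) ∧
      (∀ a a', a < a' → ∀ᶠ n in atTop, psum (f a) n < E a n → E a n ≤ f a' n) ∧
      ∀ v : ℕ → ℕ → List ℕ, (∀ a n, ∃ j, f a ∈ Cyl (v n j)) →
        ∃ g : ℕ → ℕ, ∀ a, ∃ᶠ n in atTop, ∃ j < g n, f a ∈ Cyl (v n j) := by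
  classical
  have : Nonempty Om := by
    rw [← Cardinal.mk_ne_zero_iff, Cardinal.mk_ord_toType]
    exact (Cardinal.aleph_pos 1).ne'
  obtain ⟨e, he⟩ := exists_surjection_omega1 CH (α := (ℕ → ℕ) × (ℕ → ℕ → List ℕ)) (by
    simp)
  -- the dominating functions
  have hd : ∀ a : Om, ∃ d : ℕ → ℕ, ∀ a' ≤ a, ∀ᶠ n in atTop, (e a').1 n ≤ d n := by
    intro a
    have hcount : (Set.Iic a).Countable := by
      rw [← Set.Iio_insert]
      exact (countable_Iio_omega1 a).insert a
    obtain ⟨t, ht⟩ := hcount.exists_eq_range ⟨a, le_refl a⟩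
    refine ⟨fun n => (Finset.range (n + 1)).sup (fun i => (e (t i)).1 n), ?_⟩
    intro a' ha'
    have : a' ∈ Set.Iic a := ha'
    rw [ht] at this
    obtain ⟨i, rfl⟩ := this
    filter_upwards [eventually_ge_atTop i] with n hn
    exact Finset.le_sup (f := fun i => (e (t i)).1 n)
      (Finset.mem_range.2 (Nat.lt_succ_of_le hn))
  choose E hE using hd
  have : Nonempty Cond := ⟨⟨fun _ => 0, ∅, countable_empty, fun d hd => absurd hd (notMem_empty d),
    fun d hd => absurd hd (notMem_empty d)⟩⟩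
  obtain ⟨F0, F, f, hF, hFF⟩ := recursion3 (ι := Om)
    countable_Iio_omega1 (P := Cond) (Q := ℕ → ℕ) Cond.le
    (fun p => ⟨Eventually.of_forall fun n => le_refl _, Subset.rfl⟩)
    (fun p q r hpq hqr => ⟨by
      filter_upwards [hpq.1, hqr.1] with n h1 h2
      exact h2.trans h1, hqr.2.trans hpq.2⟩)
    (fun p hp => by
      obtain ⟨q, hq, -⟩ := Cond.exists_lower p hp (fun _ => 0)
      exact ⟨q, hq⟩)
    (fun a p q x => Stage (E a) (e a).2 p q x) (fun a p => exists_stage p _ _)
  refine ⟨f, E, ?_, ?_, ?_⟩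
  · intro b
    obtain ⟨a, ha⟩ := he (b, fun _ _ => [])
    refine ⟨a, fun a' haa' => ?_⟩
    have := hE a' a haa'
    rw [ha] at this
    exact this
  · intro a a' haa'
    filter_upwards [(hFF a a' haa').1, (hF a').2.1] with n h1 h2 h3
    exact ((hF a).2.2.2.1 n h3).trans (h1.trans h2)
  · intro v hv
    obtain ⟨a, ha⟩ := he (fun _ => 0, v)
    have h3 := (hF a).2.2.2.2
    rw [ha] at h3
    rcases h3 with ⟨n, hn⟩ | ⟨g, hg⟩
    · obtain ⟨j, hj⟩ := hv a n
      exact absurd hj (hn j)
    · -- handle the countably many points below `a` separately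
      have hcount : (Set.Iio a).Countable := countable_Iio_omega1 a
      obtain ⟨h, hh⟩ : ∃ h : ℕ → ℕ, ∀ b < a, ∀ᶠ n in atTop, ∃ j < h n, f b ∈ Cyl (v n j) := by
        rcases (Set.Iio a).eq_empty_or_nonempty with hemp | hne
        · refine ⟨fun _ => 0, fun b hb => ?_⟩
          have : b ∈ Set.Iio a := hb
          rw [hemp] at this
          exact absurd this (notMem_empty b)
        · obtain ⟨t, ht⟩ := hcount.exists_eq_range hne
          choose J hJ using hv
          refine ⟨fun n => (Finset.range (n + 1)).sup (fun i => J (t i) n + 1), fun b hb => ?_⟩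
          have : b ∈ Set.Iio a := hb
          rw [ht] at this
          obtain ⟨i, rfl⟩ := this
          refine eventually_atTop.2 ⟨i, fun n hn => ⟨J (t i) n, ?_, hJ _ _⟩⟩
          exact lt_of_lt_of_le (Nat.lt_succ_self _) (Finset.le_sup (f := fun i => J (t i) n + 1)
            (Finset.mem_range.2 (Nat.lt_succ_of_le hn)))
      have hgb : ∀ b, a ≤ b → ∀ m, {x : ℕ → ℕ | ∃ n ≥ m, ∃ j < g n, x ∈ Cyl (v n j)} ∈ (F b).D := by
        intro b hb m
        rcases hb.eq_or_lt with h | h
        · rw [← h]; exact hg m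
        · exact (hF b).1.2 ((hFF a b h).2 (hg m))
      refine ⟨fun n => max (g n) (h n), fun b => ?_⟩
      rcases lt_or_ge b a with hb | hb
      · have := (hh b hb).frequently
        refine this.mono ?_
        rintro n ⟨j, hj, hfj⟩
        exact ⟨j, lt_of_lt_of_le hj (le_max_right _ _), hfj⟩
      · rw [frequently_atTop]
        intro m
        have hm := (hF b).2.2.1 _ (hgb b hb m)
        obtain ⟨n, hn, j, hj, hfj⟩ := hm
        exact ⟨n, hn, j, lt_of_lt_of_le hj (le_max_left _ _), hfj⟩

end Pool.Agent.E8helper73.Sch
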