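import Pool.Agent.E8helper73.Sch.Product
import Pool.Agent.E8helper73.Sch.Family

/-!
Under CH there is a productively Scheepers subset of the Cantor square whose product with some
Menger subset of the Cantor space is not Menger.
-/

namespace Pool.Agent.E8helper73.Sch

open Set Filter Cardinal Pool.Agent.H752R3

/-- The characteristic function of the range of `psum f`. -/
noncomputable def chi (f : ℕ → ℕ) : ℕ → Bool := by
  classical exact fun m => decide (∃ n ∈ Finset.range (m + 1), psum f n = m)

theorem chi_eq_true {f : ℕ → ℕ} {m : ℕ} : chi f m = true ↔ ∃ n, psum f n = m := by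
  simp only [chi, decide_eq_true_eq]
  constructor
  · rintro ⟨n, -, h⟩; exact ⟨n, h⟩
  · rintro ⟨n, h⟩
    refine ⟨n, Finset.mem_range.2 ?_, h⟩
    have := (psum_strictMono f).le_apply (x := n)
    omega

theorem continuous_chi : Continuous chi := by
  classical
  apply continuous_pi
  intro m
  rw [continuous_bool_rng true]
  have : (fun f : ℕ → ℕ => chi f m) ⁻¹' {true} =
      ⋃ n ∈ Finset.range (m + 1), {f : ℕ → ℕ | psum f n = m} := by
    ext f
    simp [chi]
  rw [this]
  apply isClopen_biUnion_finset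
  intro n _
  exact (isClopen_discrete ({m} : Set ℕ)).preimage
    ((continuous_apply n : Continuous fun x : ℕ → ℕ => x n).comp continuous_psum)

theorem cnt_chi_le {f : ℕ → ℕ} {k n : ℕ} (h : k ≤ psum f n) : cnt k (chi f) ≤ n := by
  classical
  unfold cnt
  rw [← Finset.card_filter]
  have : (Finset.range k).filter (fun i => chi f i = true) ⊆ (Finset.range n).image (psum f) := by
    intro i hi
    obtain ⟨h1, h2⟩ := Finset.mem_filter.1 hi
    obtain ⟨m, rfl⟩ := chi_eq_true.1 h2
    refine Finset.mem_image.2 ⟨m, Finset.mem_range.2 ?_, rfl⟩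
    have h3 := Finset.mem_range.1 h1
    exact (psum_strictMono f).lt_iff_lt.1 (lt_of_lt_of_le h3 h)
  calc _ ≤ _ := Finset.card_le_card this
    _ ≤ _ := Finset.card_image_le
    _ = n := Finset.card_range n

theorem lt_cnt_chi (f : ℕ → ℕ) (n : ℕ) : n < cnt (psum f n + 1) (chi f) := by
  classical
  unfold cnt
  rw [← Finset.card_filter]
  have : (Finset.range (n + 1)).image (psum f) ⊆
      (Finset.range (psum f n + 1)).filter (fun i => chi f i = true) := by
    intro i hi
    obtain ⟨m, hm, rfl⟩ := Finset.mem_image.1 hi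
    have h1 : m ≤ n := Nat.lt_succ_iff.1 (Finset.mem_range.1 hm)
    refine Finset.mem_filter.2 ⟨Finset.mem_range.2 ?_, chi_eq_true.2 ⟨m, rfl⟩⟩
    exact Nat.lt_succ_of_le ((psum_strictMono f).monotone h1)
  have h2 := Finset.card_le_card this
  rw [Finset.card_image_of_injective _ (psum_strictMono f).injective, Finset.card_range] at h2
  omega

theorem not_finSupp_chi (f : ℕ → ℕ) : ¬ FinSupp (chi f) := by
  rintro ⟨k, hk⟩
  have h1 := hk (psum f k) (psum_strictMono f).le_apply
  rw [chi_eq_true.2 ⟨k, rfl⟩] at h1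
  exact Bool.noConfusion h1

theorem finSupp_countable : {z : ℕ → Bool | FinSupp z}.Countable := by
  have : {z : ℕ → Bool | FinSupp z} = ⋃ k, range (extB k) := by
    ext z
    simp only [mem_ofPred_eq, mem_iUnion, mem_range]
    constructor
    · rintro ⟨k, hk⟩
      refine ⟨k, fun i => z i, ?_⟩
      ext m
      by_cases h : m < k
      · simp [extB, h]
      · simp [extB, h, hk m (not_lt.1 h)]
    · rintro ⟨k, s, rfl⟩
      exact finSupp_extB k s
  rw [this]
  exact countable_iUnion fun k => Set.countable_range _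

/-- **Under CH there is a productively Scheepers subspace of the Cantor square whose product with
some Menger subspace of the Cantor space is not Menger.** -/
theorem exists_cantor (CH : (ℵ₁ : Cardinal.{0}) = 𝔠) :
    ∃ (X : Set C2) (M : Set (ℕ → Bool)),
      (∀ (Y : Type*) [TopologicalSpace Y], ScheepersSp Y → ScheepersSp (X × Y)) ∧
      MengerSp M ∧ ¬ MengerSp (X × M) := by
  classical
  obtain ⟨f, E, hE, hfE, hmen⟩ := exists_family CH
  have hne : Nonempty Om := by
    rw [← Cardinal.mk_ne_zero_iff, Cardinal.mk_ord_toType]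
    exact (Cardinal.aleph_pos 1).ne'
  let x : Om → C2 := fun a => (chi (f a), chi (E a))
  let X : Set C2 := range x ∪ {z | FinSupp z.1 ∧ FinSupp z.2}
  let M : Set (ℕ → Bool) := range fun a => chi (f a)
  -- a stage at which `x a` is bad for `b` is a stage at which one of the partial sums is small
  have hbad : ∀ (b : ℕ → ℕ) (a : Om) (n : ℕ), n ∈ Bad b (x a) →
      psum (f a) n < b n ∨ psum (E a) n < b n := by
    intro b a n hn
    by_contra hcon
    push Not at hcon
    exact hn ⟨cnt_chi_le hcon.1, cnt_chi_le hcon.2⟩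
  refine ⟨X, M, ?_, ?_, ?_⟩
  · -- productively Scheepers
    intro Y _ hY
    refine productively_scheepers X (fun z h1 h2 => Or.inr ⟨h1, h2⟩) ?_ Y hY
    intro b 𝒰 h𝒰
    obtain ⟨a0, ha0⟩ := hE b
    -- the bad stages of `f a`, `a ≥ a0`
    have hb1 : ∀ a, a0 ≤ a → Bad b (x a) ∈ 𝒰 → {n | psum (f a) n < b n} ∈ 𝒰 := by
      intro a ha hba
      have h1 : ∀ᶠ n in (𝒰 : Filter ℕ), b n ≤ E a n := h𝒰 (ha0 a ha)
      filter_upwards [hba, h1] with n hn1 hn2
      rcases hbad b a n hn1 with h | h
      · exact h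
      · exfalso
        have := le_psum (E a) (le_refl n)
        omega
    have hb2 : ∀ a a', a0 ≤ a → a < a' → Bad b (x a) ∈ 𝒰 → Bad b (x a') ∈ 𝒰 → False := by
      intro a a' ha haa' h1 h2
      have h3 := hb1 a ha h1
      have h4 := hb1 a' (ha.trans haa'.le) h2
      have h5 : ∀ᶠ n in (𝒰 : Filter ℕ), psum (f a) n < E a n → E a n ≤ f a' n := h𝒰 (hfE a a' haa')
      have h6 : ∀ᶠ n in (𝒰 : Filter ℕ), b n ≤ E a n := h𝒰 (ha0 a ha)
      have h3' : ∀ᶠ n in (𝒰 : Filter ℕ), psum (f a) n < b n := h3
      have h4' : ∀ᶠ n in (𝒰 : Filter ℕ), psum (f a') n < b n := h4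
      obtain ⟨n, hn3, hn4, hn5, hn6⟩ := (h3'.and (h4'.and (h5.and h6))).exists
      have h7 := hn5 (lt_of_lt_of_le hn3 hn6)
      have h8 := le_psum (f a') (le_refl n)
      omega
    have hsub : {a : Om | Bad b (x a) ∈ 𝒰}.Countable := by
      by_cases hex : ∃ a, a0 ≤ a ∧ Bad b (x a) ∈ 𝒰
      · obtain ⟨a1, ha1, hba1⟩ := hex
        refine ((countable_Iio_omega1 a0).insert a1).mono ?_
        intro a ha
        rcases lt_or_ge a a0 with h | h
        · exact Or.inr h
        · left
          rcases lt_trichotomy a a1 with h' | h' | h'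
          · exact (hb2 a a1 h h' ha hba1).elim
          · exact h'
          · exact (hb2 a1 a ha1 h' hba1 ha).elim
      · refine (countable_Iio_omega1 a0).mono ?_
        intro a ha
        by_contra hcon
        exact hex ⟨a, not_lt.1 hcon, ha⟩
    have hcnt : (x '' {a : Om | Bad b (x a) ∈ 𝒰} ∪
        ({z : ℕ → Bool | FinSupp z} ×ˢ {z : ℕ → Bool | FinSupp z})).Countable :=
      (hsub.image _).union (finSupp_countable.prod finSupp_countable)
    refine hcnt.mono ?_
    rintro z ⟨⟨a, rfl⟩ | hz1, hz2⟩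
    · exact Or.inl ⟨a, hz2, rfl⟩
    · exact Or.inr hz1
  · -- Menger
    intro U hU
    obtain ⟨F, hF1, hF2⟩ := menger_of_family f chi continuous_chi hmen U hU
    refine ⟨F, hF1, ?_⟩
    rw [eq_univ_iff_forall]
    intro z
    obtain ⟨n, hn⟩ := (hF2 z).exists
    exact mem_iUnion.2 ⟨n, hn⟩
  · -- the product is not Menger
    intro hmenger
    let V : ℕ → ℕ → Set (X × M) := fun n k =>
      {z | z.1.1.1 ≠ z.2.1} ∪ {z | n < cnt k z.1.1.2}
    have hVo : ∀ n k, IsOpen (V n k) := by
      intro n k
      apply IsOpen.union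
      · exact isOpen_ne_fun (continuous_fst.comp (continuous_subtype_val.comp continuous_fst))
          (continuous_subtype_val.comp continuous_snd)
      · have hc : Continuous fun z : X × M => cnt k z.1.1.2 := (continuous_cnt k).comp
          (continuous_snd.comp (continuous_subtype_val.comp continuous_fst))
        exact (isOpen_discrete (Set.Ioi n)).preimage hc
    obtain ⟨F, hF1, hF2⟩ := hmenger.frequently (fun n => range (V n)) (by
      intro n
      refine ⟨?_, ?_⟩
      · rintro _ ⟨k, rfl⟩
        exact hVo n k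
      · rw [eq_univ_iff_forall]
        rintro ⟨⟨⟨p, q⟩, hx⟩, ⟨_, a, rfl⟩⟩
        by_cases hp : p = chi (f a)
        · rcases hx with ⟨a', ha'⟩ | ⟨hx, -⟩
          · have hq : chi (E a') = q := congrArg Prod.snd ha'
            refine ⟨_, ⟨psum (E a') n + 1, rfl⟩, Or.inr ?_⟩
            show n < cnt (psum (E a') n + 1) q
            rw [← hq]
            exact lt_cnt_chi _ _
          · exact absurd (by rw [← hp]; exact hx) (not_finSupp_chi (f a))
        · exact ⟨_, ⟨0, rfl⟩, Or.inl hp⟩)
    -- bound the indices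
    have hg : ∀ n, ∃ g, ∀ z ∈ ⋃₀ F n, z.1.1.1 ≠ z.2.1 ∨ n < cnt g z.1.1.2 := by
      intro n
      obtain ⟨G, -, hG2, hG3⟩ : ∃ G ⊆ (Set.univ : Set ℕ), G.Finite ∧ V n '' G = F n := by
        have := Set.exists_subset_image_finite_and (f := V n) (s := Set.univ)
          (p := fun t => t = F n)
        obtain ⟨E', h1, h2, h3⟩ := this.1 ⟨F n, by rw [image_univ]; exact (hF1 n).1,
          (hF1 n).2, rfl⟩
        exact ⟨E', h1, h2, h3⟩
      obtain ⟨g, hg⟩ := hG2.bddAbove
      refine ⟨g, ?_⟩
      rintro z ⟨u, hu, hz⟩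
      rw [← hG3] at hu
      obtain ⟨k, hk, rfl⟩ := hu
      rcases hz with hz | hz
      · exact Or.inl hz
      · right
        have h1 : n < cnt k z.1.1.2 := hz
        exact lt_of_lt_of_le h1 (cnt_mono (hg hk) _)
    choose g hg using hg
    obtain ⟨a, ha⟩ := hE g
    have h1 := ha a (le_refl a)
    obtain ⟨n, hn1, hn2⟩ := ((hF2 (⟨(chi (f a), chi (E a)), Or.inl ⟨a, rfl⟩⟩,
      ⟨chi (f a), a, rfl⟩)).and_eventually h1).exists
    rcases hg n _ hn1 with h2 | h2
    · exact h2 rfl
    · have h3 : cnt (g n) (chi (E a)) ≤ n := by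
        apply cnt_chi_le
        have := le_psum (E a) (le_refl n)
        omega
      have h4 : n < cnt (g n) (chi (E a)) := h2
      omega

end Pool.Agent.E8helper73.Sch
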