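import Pool.Agent.H752R3.Selection

/-!
Scheepers spaces, and a sufficient condition for a subset of the Cantor square to be productively
Scheepers in the class of all topological spaces.
-/

namespace Pool.Agent.E8helper73.Sch

open Set Filter Cardinal Pool.Agent.H752R3

/-- The Scheepers property. -/
def ScheepersSp (Z : Type*) [TopologicalSpace Z] : Prop :=
  ∀ U : ℕ → Set (Set Z), (∀ n, (∀ u ∈ U n, IsOpen u) ∧ ⋃₀ U n = Set.univ) →
    ∃ F : ℕ → Set (Set Z), (∀ n, F n ⊆ U n ∧ (F n).Finite) ∧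
      ∀ E : Set Z, E.Finite → ∃ n, E ⊆ ⋃₀ F n

theorem ScheepersSp.frequently {Z : Type*} [TopologicalSpace Z] (h : ScheepersSp Z)
    (U : ℕ → Set (Set Z)) (hU : ∀ n, (∀ u ∈ U n, IsOpen u) ∧ ⋃₀ U n = Set.univ) :
    ∃ F : ℕ → Set (Set Z), (∀ n, F n ⊆ U n ∧ (F n).Finite) ∧
      ∀ E : Set Z, E.Finite → ∃ᶠ n in atTop, E ⊆ ⋃₀ F n := by
  have h1 : ∀ m, ∃ F : ℕ → Set (Set Z), (∀ n, F n ⊆ U (m + n) ∧ (F n).Finite) ∧
      ∀ E : Set Z, E.Finite → ∃ n, E ⊆ ⋃₀ F n :=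
    fun m => h (fun n => U (m + n)) (fun n => hU (m + n))
  choose F hF1 hF2 using h1
  refine ⟨fun N => ⋃ m ∈ Finset.range (N + 1), F m (N - m), fun N => ⟨?_, ?_⟩, ?_⟩
  · apply iUnion₂_subset
    intro m hm
    have hm' : m ≤ N := Nat.lt_succ_iff.1 (Finset.mem_range.1 hm)
    have := (hF1 m (N - m)).1
    rwa [Nat.add_sub_cancel' hm'] at this
  · apply Set.Finite.biUnion (Finset.finite_toSet _)
    intro m _
    exact (hF1 m (N - m)).2
  · intro E hE
    rw [frequently_atTop]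
    intro m
    obtain ⟨n, hn⟩ := hF2 m E hE
    refine ⟨m + n, Nat.le_add_right _ _, fun z hz => ?_⟩
    obtain ⟨u, hu, hzu⟩ := hn hz
    refine ⟨u, ?_, hzu⟩
    refine mem_iUnion₂.2 ⟨m, Finset.mem_range.2 (by omega), ?_⟩
    have : m + n - m = n := by omega
    rw [this]
    exact hu

/-- Number of elements below `k`. -/
def cnt (k : ℕ) (q : ℕ → Bool) : ℕ := ∑ i ∈ Finset.range k, (if q i = true then 1 else 0)

theorem continuous_cnt (k : ℕ) : Continuous (cnt k) := by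
  unfold cnt
  apply continuous_finsetSum
  intro i _
  exact (continuous_of_discreteTopology (f := fun b : Bool => if b = true then 1 else 0)).comp
    (continuous_apply i : Continuous fun x : ℕ → Bool => x i)

theorem cnt_mono {k l : ℕ} (h : k ≤ l) (q : ℕ → Bool) : cnt k q ≤ cnt l q := by
  unfold cnt
  exact Finset.sum_le_sum_of_subset (Finset.range_mono h)

theorem finSupp_of_cnt {q : ℕ → Bool} {N : ℕ} (h : ∀ k, cnt k q ≤ N) : FinSupp q := by
  by_contra hcon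
  unfold FinSupp at hcon
  push Not at hcon
  have h1 : ∀ n, ∃ k, n ≤ cnt k q := by
    intro n
    induction n with
    | zero => exact ⟨0, Nat.zero_le _⟩
    | succ n ih =>
      obtain ⟨k, hk⟩ := ih
      obtain ⟨m, hm, hqm⟩ := hcon k
      refine ⟨m + 1, ?_⟩
      have h2 : cnt (m + 1) q = cnt m q + 1 := by
        unfold cnt
        rw [Finset.sum_range_succ]
        have : q m = true := by simpa using hqm
        simp [this]
      have h3 := cnt_mono hm q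
      omega
  obtain ⟨k, hk⟩ := h1 (N + 1)
  have := h k
  omega

/-- Pairs of sets with at most `N` elements below `k`. -/
def Few (N k : ℕ) : Set C2 := {z | cnt k z.1 ≤ N ∧ cnt k z.2 ≤ N}

theorem isClosed_Few (N k : ℕ) : IsClosed (Few N k) := by
  have h1 : IsClosed {z : C2 | cnt k z.1 ≤ N} :=
    isClosed_le ((continuous_cnt k).comp continuous_fst) continuous_const
  have h2 : IsClosed {z : C2 | cnt k z.2 ≤ N} :=
    isClosed_le ((continuous_cnt k).comp continuous_snd) continuous_const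
  exact h1.inter h2

theorem Few_anti (N : ℕ) {k l : ℕ} (h : k ≤ l) : Few N l ⊆ Few N k := fun z hz =>
  ⟨(cnt_mono h z.1).trans hz.1, (cnt_mono h z.2).trans hz.2⟩

/-- A tube lemma: an open cover of `X × Y` has finitely many members which cover all `(w, y')`
with `y'` near `y` and `w` having at most `N` elements below a suitable `b`. -/
theorem exists_tube {X : Set C2} (hfin : ∀ z : C2, FinSupp z.1 → FinSupp z.2 → z ∈ X)
    {Y : Type*} [TopologicalSpace Y] (U : Set (Set (X × Y))) (hU : ∀ u ∈ U, IsOpen u)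
    (hcov : ⋃₀ U = Set.univ) (N : ℕ) (y : Y) :
    ∃ (V : Set Y) (b : ℕ) (G : Set (Set (X × Y))), IsOpen V ∧ y ∈ V ∧ G ⊆ U ∧ G.Finite ∧
      ∀ w : X, w.1 ∈ Few N b → ∀ y' ∈ V, (w, y') ∈ ⋃₀ G := by
  classical
  let K : Set C2 := ⋂ k, Few N k
  have hKc : IsCompact K := (isClosed_iInter fun k => isClosed_Few N k).isCompact
  have hKX : ∀ z : K, z.1 ∈ X := by
    intro z
    have hz : ∀ k, z.1 ∈ Few N k := fun k => mem_iInter.1 z.2 k
    exact hfin _ (finSupp_of_cnt fun k => (hz k).1) (finSupp_of_cnt fun k => (hz k).2)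
  have h1 : ∀ z : K, ∃ (A : Set C2) (V : Set Y) (u : Set (X × Y)), u ∈ U ∧ IsOpen A ∧ IsOpen V ∧
      z.1 ∈ A ∧ y ∈ V ∧ ∀ w : X, w.1 ∈ A → ∀ y' ∈ V, (w, y') ∈ u := by
    intro z
    have hmem : ((⟨z.1, hKX z⟩ : X), y) ∈ ⋃₀ U := by rw [hcov]; trivial
    obtain ⟨u, hu, hzu⟩ := hmem
    obtain ⟨A, V, hA, hV, hzA, hyV, hsub⟩ := isOpen_prod_iff.1 (hU u hu) _ _ hzu
    obtain ⟨A', hA', rfl⟩ := isOpen_induced_iff.1 hA
    exact ⟨A', V, u, hu, hA', hV, hzA, hyV, fun w hw y' hy' => hsub ⟨hw, hy'⟩⟩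
  choose A V u hu hA hV hzA hyV hAV using h1
  obtain ⟨t, ht⟩ := hKc.elim_finite_subcover A hA (fun z hz => mem_iUnion.2 ⟨⟨z, hz⟩, hzA _⟩)
  have hclosed : IsCompact (⋃ z ∈ t, A z)ᶜ :=
    (isOpen_biUnion fun z _ => hA z).isClosed_compl.isCompact
  obtain ⟨k, hk⟩ := hclosed.elim_directed_family_closed (fun k => Few N k)
    (fun k => isClosed_Few N k) (by
      rw [Set.eq_empty_iff_forall_notMem]
      rintro z ⟨hz1, hz2⟩
      exact hz1 (ht hz2)) (by
      intro i j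
      exact ⟨max i j, Few_anti N (le_max_left _ _), Few_anti N (le_max_right _ _)⟩)
  refine ⟨⋂ z ∈ t, V z, k, u '' t, ?_, ?_, ?_, ?_, ?_⟩
  · exact isOpen_biInter_finset fun z _ => hV z
  · exact mem_iInter₂.2 fun z _ => hyV z
  · rintro _ ⟨z, _, rfl⟩
    exact hu z
  · exact (Finset.finite_toSet t).image _
  · intro w hw y' hy'
    have hwA : w.1 ∈ ⋃ z ∈ t, A z := by
      by_contra hcon
      have : w.1 ∈ (⋃ z ∈ t, A z)ᶜ ∩ Few N k := ⟨hcon, hw⟩
      rw [hk] at this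
      exact this
    obtain ⟨z, hz, hwz⟩ := mem_iUnion₂.1 hwA
    exact ⟨u z, ⟨z, hz, rfl⟩, hAV z w hwz y' (mem_iInter₂.1 hy' z hz)⟩

/-- The stages at which `x` has too many elements below `b n`. -/
def Bad (b : ℕ → ℕ) (x : C2) : Set ℕ := {n | x ∉ Few n (b n)}

/-- A nonprincipal ultrafilter containing given sets. -/
theorem exists_ultra {ι : Type*} (S : ι → Set ℕ)
    (h : ∀ E : Set ι, E.Finite → ∃ᶠ n in atTop, ∀ i ∈ E, n ∈ S i) :
    ∃ 𝒰 : Ultrafilter ℕ, (𝒰 : Filter ℕ) ≤ atTop ∧ ∀ i, S i ∈ 𝒰 := by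
  classical
  let 𝓕 : Filter ℕ := atTop ⊓ ⨅ i, 𝓟 (S i)
  have hne : 𝓕.NeBot := by
    rw [Filter.inf_neBot_iff]
    intro A hA B hB
    obtain ⟨t, ht, V, hV, hVB⟩ := (Filter.mem_iInf (s := fun i => 𝓟 (S i)) (U := B)).1 hB
    obtain ⟨n, hn1, hn2⟩ := ((h t ht).and_eventually hA).exists
    refine ⟨n, hn2, ?_⟩
    rw [hVB]
    exact mem_iInter.2 fun i => (hV i) (hn1 i i.2)
  refine ⟨Ultrafilter.of 𝓕, (Ultrafilter.of_le 𝓕).trans inf_le_left, fun i => ?_⟩
  have : S i ∈ 𝓕 := mem_inf_of_right (mem_iInf_of_mem i (mem_principal_self _))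
  exact Ultrafilter.of_le 𝓕 this

end Pool.Agent.E8helper73.Sch
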