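import Pool.Agent.E8helper73.Sch.Criterion

/-!
A subset of the Cantor square which contains all pairs of finite sets, and in which for every
function `b` and every nonprincipal ultrafilter `𝒰` only countably many points are bad
(`Bad b x ∈ 𝒰`), is productively Scheepers in the class of all topological spaces.
-/

namespace Pool.Agent.E8helper73.Sch

open Set Filter Cardinal Pool.Agent.H752R3

/-- Selections which take care of the pairs of sets with few elements and of the members of a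
finite set `A`. -/
theorem exists_selection {X : Set C2} (hfin : ∀ z : C2, FinSupp z.1 → FinSupp z.2 → z ∈ X)
    {Y : Type*} [TopologicalSpace Y] (hY : ScheepersSp Y)
    (U : ℕ → Set (Set (X × Y))) (hU : ∀ n, (∀ u ∈ U n, IsOpen u) ∧ ⋃₀ U n = Set.univ)
    (A : Finset X) :
    ∃ (G : ℕ → Set (Set Y)) (b : ℕ → ℕ) (H : ℕ → Set (Set (X × Y))),
      (∀ N, H N ⊆ U N ∧ (H N).Finite) ∧
      (∀ N, ∀ w : X, w.1 ∈ Few N (b N) → ∀ y ∈ ⋃₀ G N, (w, y) ∈ ⋃₀ H N) ∧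
      (∀ N, ∀ a ∈ A, ∀ y ∈ ⋃₀ G N, (a, y) ∈ ⋃₀ H N) ∧
      ∀ E : Set Y, E.Finite → ∃ᶠ N in atTop, E ⊆ ⋃₀ G N := by
  classical
  let W : ℕ → Set (Set Y) := fun N => {V | IsOpen V ∧ ∃ b : ℕ, ∃ H : Set (Set (X × Y)),
    H ⊆ U N ∧ H.Finite ∧ (∀ w : X, w.1 ∈ Few N b → ∀ y ∈ V, (w, y) ∈ ⋃₀ H) ∧
    ∀ a ∈ A, ∀ y ∈ V, (a, y) ∈ ⋃₀ H}
  have hW : ∀ N, (∀ V ∈ W N, IsOpen V) ∧ ⋃₀ W N = Set.univ := by
    intro N
    refine ⟨fun V hV => hV.1, ?_⟩
    rw [eq_univ_iff_forall]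
    intro y
    obtain ⟨V, b, G, hV, hyV, hG1, hG2, hG3⟩ := exists_tube hfin (U N) (hU N).1 (hU N).2 N y
    have h1 : ∀ a : X, ∃ u ∈ U N, (a, y) ∈ u := by
      intro a
      have : (a, y) ∈ ⋃₀ U N := by rw [(hU N).2]; trivial
      exact this
    choose u hu hau using h1
    have hopen : ∀ a : X, IsOpen {y' : Y | (a, y') ∈ u a} := fun a =>
      ((hU N).1 _ (hu a)).preimage (Continuous.prodMk_right a)
    refine ⟨V ∩ ⋂ a ∈ A, {y' : Y | (a, y') ∈ u a}, ⟨?_, b, G ∪ u '' A, ?_, ?_, ?_, ?_⟩,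
      hyV, ?_⟩
    · exact hV.inter (isOpen_biInter_finset fun a _ => hopen a)
    · apply union_subset hG1
      rintro _ ⟨a, _, rfl⟩
      exact hu a
    · exact hG2.union ((Finset.finite_toSet A).image _)
    · intro w hw y' hy'
      obtain ⟨v, hv, hv'⟩ := hG3 w hw y' hy'.1
      exact ⟨v, Or.inl hv, hv'⟩
    · intro a ha y' hy'
      exact ⟨u a, Or.inr ⟨a, ha, rfl⟩, mem_iInter₂.1 hy'.2 a ha⟩
    · exact mem_iInter₂.2 fun a _ => hau a
  obtain ⟨G, hG1, hG2⟩ := hY.frequently W hW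
  have h2 : ∀ N, ∃ (b : ℕ) (H : Set (Set (X × Y))), H ⊆ U N ∧ H.Finite ∧
      (∀ w : X, w.1 ∈ Few N b → ∀ y ∈ ⋃₀ G N, (w, y) ∈ ⋃₀ H) ∧
      ∀ a ∈ A, ∀ y ∈ ⋃₀ G N, (a, y) ∈ ⋃₀ H := by
    intro N
    have h3 : ∀ V : G N, ∃ b : ℕ, ∃ H : Set (Set (X × Y)),
      H ⊆ U N ∧ H.Finite ∧ (∀ w : X, w.1 ∈ Few N b → ∀ y ∈ (V : Set Y), (w, y) ∈ ⋃₀ H) ∧
      ∀ a ∈ A, ∀ y ∈ (V : Set Y), (a, y) ∈ ⋃₀ H := fun V => ((hG1 N).1 V.2).2
    choose b H hH1 hH2 hH3 hH4 using h3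
    have : Finite (G N) := (hG1 N).2.to_subtype
    have := Fintype.ofFinite (G N)
    refine ⟨Finset.univ.sup b, ⋃ V, H V, iUnion_subset hH1, Set.finite_iUnion hH2, ?_, ?_⟩
    · rintro w hw y ⟨V, hV, hyV⟩
      obtain ⟨v, hv, hv'⟩ := hH3 ⟨V, hV⟩ w
        (Few_anti N (Finset.le_sup (f := b) (Finset.mem_univ _)) hw) y hyV
      exact ⟨v, mem_iUnion.2 ⟨⟨V, hV⟩, hv⟩, hv'⟩
    · rintro a ha y ⟨V, hV, hyV⟩
      obtain ⟨v, hv, hv'⟩ := hH4 ⟨V, hV⟩ a ha y hyV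
      exact ⟨v, mem_iUnion.2 ⟨⟨V, hV⟩, hv⟩, hv'⟩
  choose b H hH1 hH2 hH3 hH4 using h2
  exact ⟨G, b, H, fun N => ⟨hH1 N, hH2 N⟩, hH3, hH4, hG2⟩

/-- Closing off: a countable set closed under a function from finite sets to countable sets. -/
theorem exists_closed {α : Type*} (x0 : α) (Z : Finset α → Set α) (hZ : ∀ A, (Z A).Countable) :
    ∃ E : Set α, E.Countable ∧ x0 ∈ E ∧ ∀ A : Finset α, (A : Set α) ⊆ E → Z A ⊆ E := by
  classical
  let st : ℕ → Set α := fun n => Nat.rec {x0}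
    (fun _ s => s ∪ ⋃ A ∈ {A : Finset α | (A : Set α) ⊆ s}, Z A) n
  have sts : ∀ n, st (n + 1) = st n ∪ ⋃ A ∈ {A : Finset α | (A : Set α) ⊆ st n}, Z A :=
    fun n => rfl
  have hc : ∀ n, (st n).Countable := by
    intro n
    induction n with
    | zero => exact countable_singleton x0
    | succ n ih =>
      rw [sts]
      refine ih.union (Set.Countable.biUnion ?_ fun A _ => hZ A)
      have h1 : {t : Set α | t.Finite ∧ t ⊆ st n}.Countable :=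
        Set.countable_ofPred_finite_subset ih
      have h2 := h1.preimage_of_injOn (f := fun A : Finset α => (A : Set α))
        (Finset.coe_injective.injOn)
      refine h2.mono fun A hA => ?_
      exact ⟨Finset.finite_toSet A, hA⟩
  have hmono : Monotone st := monotone_nat_of_le_succ fun n => by
    rw [sts]; exact subset_union_left
  refine ⟨⋃ n, st n, countable_iUnion hc, mem_iUnion.2 ⟨0, rfl⟩, fun A hA => ?_⟩
  have h3 : ∃ n, (A : Set α) ⊆ st n := by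
    have : ∀ a ∈ A, ∃ n, a ∈ st n := fun a ha => mem_iUnion.1 (hA ha)
    choose! f hf using this
    exact ⟨A.sup f, fun a ha => hmono (Finset.le_sup (f := f) ha) (hf a ha)⟩
  obtain ⟨n, hn⟩ := h3
  intro x hx
  refine mem_iUnion.2 ⟨n + 1, ?_⟩
  rw [sts]
  exact Or.inr (mem_iUnion₂.2 ⟨A, hn, hx⟩)

/-- **Productively Scheepers criterion.** -/
theorem productively_scheepers (X : Set C2)
    (hfin : ∀ z : C2, FinSupp z.1 → FinSupp z.2 → z ∈ X)
    (hX : ∀ (b : ℕ → ℕ) (𝒰 : Ultrafilter ℕ), (𝒰 : Filter ℕ) ≤ atTop →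
      {x : C2 | x ∈ X ∧ Bad b x ∈ 𝒰}.Countable)
    (Y : Type*) [TopologicalSpace Y] (hY : ScheepersSp Y) : ScheepersSp (X × Y) := by
  classical
  intro U hU
  have h1 := fun A => exists_selection hfin hY U hU A
  choose G b H hH1 hH2 hH3 hG using h1
  have h2 : ∀ A, ∃ 𝒰 : Ultrafilter ℕ, (𝒰 : Filter ℕ) ≤ atTop ∧
      ∀ y : Y, {N | y ∈ ⋃₀ G A N} ∈ 𝒰 := by
    intro A
    apply exists_ultra
    intro E hE
    exact (hG A E hE).mono fun N hN y hy => hN hy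
  choose 𝒰 h𝒰1 h𝒰2 using h2
  have hZ : ∀ A, {x : X | Bad (b A) x.1 ∈ 𝒰 A}.Countable := by
    intro A
    have : {x : X | Bad (b A) x.1 ∈ 𝒰 A} =
        Subtype.val ⁻¹' {x : C2 | x ∈ X ∧ Bad (b A) x ∈ 𝒰 A} := by
      ext x
      simp
    rw [this]
    exact (hX (b A) (𝒰 A) (h𝒰1 A)).preimage Subtype.val_injective
  obtain ⟨E, hEc, hE0, hEcl⟩ := exists_closed
    (⟨(fun _ => false, fun _ => false), hfin _ ⟨0, fun _ _ => rfl⟩ ⟨0, fun _ _ => rfl⟩⟩ : X)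
    (fun A => {x : X | Bad (b A) x.1 ∈ 𝒰 A}) hZ
  obtain ⟨t, ht⟩ := hEc.exists_eq_range ⟨_, hE0⟩
  let A : ℕ → Finset X := fun m => (Finset.range m).image t
  have hAE : ∀ m, ((A m : Finset X) : Set X) ⊆ E := by
    intro m x hx
    obtain ⟨i, -, rfl⟩ := Finset.mem_image.1 hx
    rw [ht]
    exact ⟨i, rfl⟩
  refine ⟨fun N => ⋃ m ∈ Finset.range (N + 1), H (A m) N, fun N => ⟨?_, ?_⟩, ?_⟩
  · exact iUnion₂_subset fun m _ => (hH1 (A m) N).1
  · exact Set.Finite.biUnion (Finset.finite_toSet _) fun m _ => (hH1 (A m) N).2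
  · intro P hP
    -- an index `m` such that `A m` contains the first coordinates in `E`
    obtain ⟨m, hm⟩ : ∃ m, ∀ z ∈ P, z.1 ∈ E → z.1 ∈ A m := by
      have h3 : ∀ z : X × Y, ∃ i, z.1 ∈ E → t i = z.1 := by
        intro z
        by_cases hz : z.1 ∈ E
        · rw [ht] at hz
          obtain ⟨i, hi⟩ := hz
          exact ⟨i, fun _ => hi⟩
        · exact ⟨0, fun h => absurd h hz⟩
      choose i hi using h3
      refine ⟨hP.toFinset.sup i + 1, fun z hz hzE => ?_⟩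
      refine Finset.mem_image.2 ⟨i z, Finset.mem_range.2 ?_, hi z hzE⟩
      exact Nat.lt_succ_of_le (Finset.le_sup (f := i) (hP.mem_toFinset.2 hz))
    have h4 : ∀ᶠ N in (𝒰 (A m) : Filter ℕ), ∀ z ∈ P, z.2 ∈ ⋃₀ G (A m) N ∧
        (z.1 ∈ E ∨ z.1.1 ∈ Few N (b (A m) N)) := by
      rw [Filter.eventually_all_finite hP]
      intro z _
      refine Filter.Eventually.and (h𝒰2 (A m) z.2) ?_
      by_cases hz : z.1 ∈ E
      · exact Filter.Eventually.of_forall fun _ => Or.inl hz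
      · have h5 : Bad (b (A m)) z.1.1 ∉ 𝒰 (A m) := fun hcon =>
          hz (hEcl (A m) (hAE m) hcon)
        have h6 := Ultrafilter.compl_mem_iff_notMem.2 h5
        filter_upwards [h6] with N hN
        right
        by_contra hcon
        exact hN hcon
    have h7 : ∀ᶠ N in (𝒰 (A m) : Filter ℕ), m ≤ N := h𝒰1 (A m) (eventually_ge_atTop m)
    obtain ⟨N, hN1, hN2⟩ := (h4.and h7).exists
    refine ⟨N, fun z hz => ?_⟩
    obtain ⟨h8, h9⟩ := hN1 z hz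
    have h10 : z ∈ ⋃₀ H (A m) N := by
      rcases h9 with h9 | h9
      · exact hH3 (A m) N z.1 (hm z hz h9) z.2 h8
      · exact hH2 (A m) N z.1 h9 z.2 h8
    obtain ⟨v, hv, hv'⟩ := h10
    exact ⟨v, mem_iUnion₂.2 ⟨m, Finset.mem_range.2 (by omega), hv⟩, hv'⟩

end Pool.Agent.E8helper73.Sch
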