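import Pool.Agent.E8helper73.Sch.Cantor

/-!
From subsets of the Cantor square to sets of reals.
-/

namespace Pool.Agent.E8helper73.Sch

open Set Filter Cardinal Pool.Agent.H752R3 Topology

/-- a finite family in the image of a family of sets comes from a finite family -/
theorem exists_finite_lift {Z Z' : Type*} (g : Z → Z') {U : Set (Set Z')} {F : Set (Set Z)}
    (hF : F ⊆ (fun u => g ⁻¹' u) '' U) (hfin : F.Finite) :
    ∃ G ⊆ U, G.Finite ∧ (fun u => g ⁻¹' u) '' G = F := by
  have := Set.exists_subset_image_finite_and (f := fun u : Set Z' => g ⁻¹' u) (s := U)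
    (p := fun t => t = F)
  obtain ⟨E', h1, h2, h3⟩ := this.1 ⟨F, hF, hfin, rfl⟩
  exact ⟨E', h1, h2, h3⟩

theorem ScheepersSp.of_surjective {Z Z' : Type*} [TopologicalSpace Z] [TopologicalSpace Z']
    (h : ScheepersSp Z) (g : Z → Z') (hg : Continuous g) (hs : Function.Surjective g) :
    ScheepersSp Z' := by
  intro U hU
  obtain ⟨F, hF1, hF2⟩ := h (fun n => (fun u => g ⁻¹' u) '' U n) (by
    intro n
    refine ⟨?_, ?_⟩
    · rintro _ ⟨u, hu, rfl⟩
      exact ((hU n).1 u hu).preimage hg
    · rw [eq_univ_iff_forall]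
      intro z
      have : g z ∈ ⋃₀ U n := by rw [(hU n).2]; trivial
      obtain ⟨u, hu, hz⟩ := this
      exact ⟨_, ⟨u, hu, rfl⟩, hz⟩)
  have h1 := fun n => exists_finite_lift g (hF1 n).1 (hF1 n).2
  choose G hG1 hG2 hG3 using h1
  refine ⟨G, fun n => ⟨hG1 n, hG2 n⟩, fun E hE => ?_⟩
  obtain ⟨σ, hσ⟩ := hs.hasRightInverse
  obtain ⟨n, hn⟩ := hF2 (σ '' E) (hE.image σ)
  refine ⟨n, fun z hz => ?_⟩
  obtain ⟨v, hv, hzv⟩ := hn ⟨z, hz, rfl⟩
  rw [← hG3 n] at hv
  obtain ⟨u, hu, rfl⟩ := hv
  refine ⟨u, hu, ?_⟩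
  have : g (σ z) ∈ u := hzv
  rwa [hσ z] at this

theorem menger_of_surjective {Z Z' : Type*} [TopologicalSpace Z] [TopologicalSpace Z']
    (h : MengerSp Z) (g : Z → Z') (hg : Continuous g) (hs : Function.Surjective g) :
    MengerSp Z' := by
  intro U hU
  obtain ⟨F, hF1, hF2⟩ := h (fun n => (fun u => g ⁻¹' u) '' U n) (by
    intro n
    refine ⟨?_, ?_⟩
    · rintro _ ⟨u, hu, rfl⟩
      exact ((hU n).1 u hu).preimage hg
    · rw [eq_univ_iff_forall]
      intro z
      have : g z ∈ ⋃₀ U n := by rw [(hU n).2]; trivial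
      obtain ⟨u, hu, hz⟩ := this
      exact ⟨_, ⟨u, hu, rfl⟩, hz⟩)
  have h1 := fun n => exists_finite_lift g (hF1 n).1 (hF1 n).2
  choose G hG1 hG2 hG3 using h1
  refine ⟨G, fun n => ⟨hG1 n, hG2 n⟩, ?_⟩
  rw [eq_univ_iff_forall]
  intro z
  obtain ⟨z, rfl⟩ := hs z
  have : z ∈ ⋃ n, ⋃₀ F n := by rw [hF2]; trivial
  obtain ⟨n, hn⟩ := mem_iUnion.1 this
  obtain ⟨v, hv, hzv⟩ := hn
  rw [← hG3 n] at hv
  obtain ⟨u, hu, rfl⟩ := hv
  exact mem_iUnion.2 ⟨n, u, hu, hzv⟩

/-- The embedding of the Cantor space into the reals. -/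
theorem isEmbedding_cantor : IsEmbedding (Cardinal.cantorFunction (1 / 3)) := by
  have hc : Continuous (Cardinal.cantorFunction (1 / 3)) := by
    unfold Cardinal.cantorFunction
    refine continuous_tsum (u := fun n => (1 / 3 : ℝ) ^ n) (fun n => ?_)
      (summable_geometric_of_lt_one (by norm_num) (by norm_num)) (fun n x => ?_)
    · unfold Cardinal.cantorFunctionAux
      exact (continuous_of_discreteTopology (f := fun b : Bool => cond b ((1 / 3 : ℝ) ^ n) 0)).comp
        (continuous_apply n : Continuous fun x : ℕ → Bool => x n)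
    · unfold Cardinal.cantorFunctionAux
      cases x n
      · simp
      · simp
  exact (hc.isClosedEmbedding (Cardinal.cantorFunction_injective (by norm_num)
    (by norm_num))).isEmbedding

/-- The two coordinates are written alternately. -/
def interleave (z : C2) : ℕ → Bool := fun m => if m % 2 = 0 then z.1 (m / 2) else z.2 (m / 2)

theorem isEmbedding_interleave : IsEmbedding interleave := by
  have hc : Continuous interleave := by
    apply continuous_pi
    intro m
    unfold interleave
    by_cases h : m % 2 = 0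
    · simp only [h, if_true]
      exact (continuous_apply (m / 2)).comp continuous_fst
    · simp only [h, if_false]
      exact (continuous_apply (m / 2)).comp continuous_snd
  have hi : Function.Injective interleave := by
    intro z w h
    have h1 : ∀ m, interleave z m = interleave w m := fun m => congrFun h m
    ext m
    · have := h1 (2 * m)
      simpa [interleave] using this
    · have := h1 (2 * m + 1)
      have h2 : (2 * m + 1) % 2 = 1 := by omega
      have h3 : (2 * m + 1) / 2 = m := by omega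
      simpa [interleave, h2, h3] using this
  exact (hc.isClosedEmbedding hi).isEmbedding

/-- **The theorem for sets of reals.** -/
theorem exists_reals (CH : (ℵ₁ : Cardinal.{0}) = 𝔠) :
    ∃ X M : Set ℝ,
      (∀ (Y : Type*) [TopologicalSpace Y], ScheepersSp Y → ScheepersSp (X × Y)) ∧
      MengerSp M ∧ ¬ MengerSp (X × M) := by
  obtain ⟨X, M, h1, h2, h3⟩ := exists_cantor CH
  let φ : C2 → ℝ := Cardinal.cantorFunction (1 / 3) ∘ interleave
  have hφ : IsEmbedding φ := isEmbedding_cantor.comp isEmbedding_interleave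
  let eX : X ≃ₜ (φ '' X) := hφ.homeomorphImage X
  let eM : M ≃ₜ (Cardinal.cantorFunction (1 / 3) '' M) := isEmbedding_cantor.homeomorphImage M
  refine ⟨φ '' X, Cardinal.cantorFunction (1 / 3) '' M, ?_, ?_, ?_⟩
  · intro Y _ hY
    have h4 := h1 Y hY
    exact h4.of_surjective (eX.prodCongr (Homeomorph.refl Y))
      (eX.prodCongr (Homeomorph.refl Y)).continuous (eX.prodCongr (Homeomorph.refl Y)).surjective
  · exact menger_of_surjective h2 eM eM.continuous eM.surjective
  · intro h4
    apply h3
    exact menger_of_surjective h4 (eX.prodCongr eM).symm (eX.prodCongr eM).symm.continuous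
      (eX.prodCongr eM).symm.surjective

end Pool.Agent.E8helper73.Sch
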