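import Pool.Agent.H752R3.ScaleBasics

/-!
One step of the construction: a generic function and a new lower bound which is large wherever the
partial sums of the generic function are small.
-/

namespace Pool.Agent.E8helper73.Sch

open Set Filter Cardinal Pool.Agent.H752R3

/-- Fusion for sequences with values in an arbitrary type. -/
theorem fusionG {α : Type*} (P : ℕ → (ℕ → α) → ℕ → ℕ → Prop)
    (w0 : ℕ → α) (k0 : ℕ)
    (hP : ∀ (j : ℕ) (w : ℕ → α) (k : ℕ), ∃ (w' : ℕ → α) (k' : ℕ), k < k' ∧
      (∀ n < k, w' n = w n) ∧ ∀ c : ℕ → α, (∀ n < k', c n = w' n) → P j c k k') :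
    ∃ (c : ℕ → α) (K : ℕ → ℕ), K 0 = k0 ∧ (∀ n < k0, c n = w0 n) ∧ StrictMono K ∧
      ∀ j, P j c (K j) (K (j + 1)) := by
  choose W K' h1 h2 h3 using hP
  let st : ℕ → (ℕ → α) × ℕ := fun j => Nat.rec (w0, k0) (fun j s => (W j s.1 s.2, K' j s.1 s.2)) j
  have sts : ∀ j, st (j + 1) = (W j (st j).1 (st j).2, K' j (st j).1 (st j).2) := fun j => rfl
  have hmono : StrictMono (fun j => (st j).2) := by
    apply strictMono_nat_of_lt_succ
    intro j
    show (st j).2 < (st (j + 1)).2
    rw [sts]
    exact h1 _ _ _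
  have hagree1 : ∀ j, ∀ n < (st j).2, (st (j + 1)).1 n = (st j).1 n := by
    intro j n hn
    rw [sts]
    exact h2 _ _ _ n hn
  have hagree : ∀ j m, j ≤ m → ∀ n < (st j).2, (st m).1 n = (st j).1 n := by
    intro j m hjm
    induction m, hjm using Nat.le_induction with
    | base => intro n _; rfl
    | succ m hm ih =>
      intro n hn
      rw [hagree1 m n (lt_of_lt_of_le hn (hmono.monotone hm)), ih n hn]
  have hid : ∀ j, j ≤ (st j).2 := fun j => hmono.le_apply
  let c : ℕ → α := fun n => (st (n + 1)).1 n
  have hc : ∀ j, ∀ n < (st j).2, c n = (st j).1 n := by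
    intro j n hn
    show (st (n + 1)).1 n = (st j).1 n
    rcases le_total j (n + 1) with h | h
    · exact hagree j (n + 1) h n hn
    · exact (hagree (n + 1) j h n (lt_of_lt_of_le (Nat.lt_succ_self n) (hid (n + 1)))).symm
  refine ⟨c, fun j => (st j).2, rfl, fun n hn => ?_, hmono, fun j => ?_⟩
  · exact hc 0 n hn
  · have := h3 j (st j).1 (st j).2 c
    apply this
    intro n hn
    have h4 := hc (j + 1) n (by rw [sts]; exact hn)
    rw [h4, sts]

/-- Blocks of a strictly increasing sequence starting at `k`. -/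
theorem exists_block {K : ℕ → ℕ} (hmono : StrictMono K) {n : ℕ} (hn : K 0 ≤ n) :
    ∃ j, K j ≤ n ∧ n < K (j + 1) := by
  classical
  have hex : ∃ j, n < K j := ⟨n + 1, lt_of_lt_of_le (Nat.lt_succ_self n) hmono.le_apply⟩
  obtain ⟨j, hj, hjmin⟩ : ∃ j, n < K j ∧ ∀ m < j, ¬ n < K m :=
    ⟨Nat.find hex, Nat.find_spec hex, fun m hm => Nat.find_min hex hm⟩
  cases j with
  | zero => omega
  | succ j => exact ⟨j, not_lt.1 (hjmin j (Nat.lt_succ_self j)), hj⟩

/-- **One step.**  Given a lower bound `c`, open sets `D j` which meet all cones of `c`, and a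
function `e`, there are `f` in all the `D j`, in a given cone of `c`, and a larger lower bound `c'`
for which the `D j` still meet all cones and which is at least `e` wherever the partial sum of `f`
is below `e`. -/
theorem exists_step {c : ℕ → ℕ} {D : ℕ → Set (ℕ → ℕ)} (hopen : ∀ j, IsOpen (D j))
    (hgood : ∀ j, Good (D j) c) (e : ℕ → ℕ) (u : ℕ → ℕ) (k0 : ℕ) :
    ∃ f c' : ℕ → ℕ, f ∈ Cone c u k0 ∧ (∀ j, f ∈ D j) ∧ (∀ n, c n ≤ c' n) ∧
      (∀ n, psum f n < e n → e n ≤ c' n) ∧ ∀ j, Good (D j) c' := by
  -- tasks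
  obtain ⟨T, hT⟩ : ∃ T : ℕ → ℕ × List ℕ, Function.Surjective T := exists_surjective_nat _
  let U : ℕ → ℕ → ℕ := fun j n => (T j).2.getD n 0
  let P : ℕ → (ℕ → ℕ × ℕ) → ℕ → ℕ → Prop := fun t w k k' =>
    (∀ n, k ≤ n → n < k' → c n ≤ (w n).1 ∧ c n ≤ (w n).2 ∧
      (psum (fun i => (w i).1) n < e n → e n ≤ (w n).2)) ∧
    (fun i => (w i).1) ∈ D (T t).1 ∧
    (D (T t).1 ∩ Cone (fun i => (w i).2) (U t) (T t).2.length).Nonempty
  obtain ⟨w, K, hK0, hw0, hmono, hP⟩ := fusionG P (fun n => (u n, max (c n) (e n))) k0 (by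
    intro t w k
    -- step A: put `f` into `D (T t).1`
    obtain ⟨x, hxD, hxw, hxc⟩ := hgood (T t).1 (fun i => (w i).1) k
    obtain ⟨L0, hL0⟩ := exists_agree_of_isOpen (hopen _) hxD
    set m1 := max L0 (max (k + 1) (T t).2.length) with hm1
    let w1 : ℕ → ℕ × ℕ := fun n => if n < k then w n else (x n, max (c n) (e n))
    -- step B: reach `D (T t).1` from `U t`
    let s : ℕ → ℕ := fun n => if n < (T t).2.length then U t n else (w1 n).2
    obtain ⟨y, hyD, hys, hyc⟩ := hgood (T t).1 s m1
    obtain ⟨L1, hL1⟩ := exists_agree_of_isOpen (hopen _) hyD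
    set m2 := max L1 (m1 + 1) with hm2
    let B : ℕ := (Finset.range (m2 + 1)).sup e
    have hB : ∀ n ≤ m2, e n ≤ B := fun n hn =>
      Finset.le_sup (f := e) (Finset.mem_range.2 (Nat.lt_succ_of_le hn))
    let w2 : ℕ → ℕ × ℕ := fun n => if n < m1 then w1 n else (max (c n) B, c n)
    refine ⟨w2, m2, by omega, ?_, ?_⟩
    · intro n hn
      have h1 : n < m1 := by omega
      simp only [w2, w1, if_pos h1, if_pos hn]
    · intro v hv
      refine ⟨?_, ?_, ?_⟩
      · intro n hkn hnL
        rw [hv n hnL]
        by_cases h1 : n < m1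
        · simp only [w2, if_pos h1, w1, if_neg (not_lt.2 hkn)]
          exact ⟨hxc n hkn, le_max_left _ _, fun _ => le_max_right _ _⟩
        · simp only [w2, if_neg h1]
          refine ⟨le_max_left _ _, le_refl _, fun h2 => ?_⟩
          exfalso
          have h3 : (v n).1 ≤ psum (fun i => (v i).1) n := by
            have := le_psum (fun i => (v i).1) (le_refl n)
            omega
          have h4 : B ≤ (v n).1 := by
            rw [hv n hnL]
            simp only [w2, if_neg h1]
            exact le_max_right _ _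
          have h5 := hB n (by omega)
          omega
      · apply hL0
        intro n hn
        have h1 : n < m1 := by omega
        show (v n).1 = x n
        rw [hv n (by omega)]
        simp only [w2, if_pos h1, w1]
        by_cases h2 : n < k
        · rw [if_pos h2]
          exact (hxw n h2).symm
        · rw [if_neg h2]
      · let z : ℕ → ℕ := fun n => if n < m2 then y n else (v n).2
        refine ⟨z, hL1 z ?_, ?_, ?_⟩
        · intro n hn
          have h1 : n < m2 := by omega
          simp only [z, if_pos h1]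
        · intro i hi
          have h1 : i < m2 := by omega
          have h2 : i < m1 := by omega
          simp only [z, if_pos h1]
          rw [hys i h2]
          simp only [s, if_pos hi]
        · intro i hi
          show (v i).2 ≤ z i
          by_cases h1 : i < m2
          · simp only [z, if_pos h1]
            rw [hv i h1]
            by_cases h2 : i < m1
            · rw [hys i h2]
              simp only [s, if_neg (not_lt.2 hi), w2, if_pos h2]
              exact le_refl _
            · simp only [w2, if_neg h2]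
              exact hyc i (not_lt.1 h2)
          · simp only [z, if_neg h1]
            exact le_refl _)
  have hcov : ∀ n, n < k0 ∨ ∃ t, K t ≤ n ∧ n < K (t + 1) := by
    intro n
    rcases lt_or_ge n k0 with h | h
    · exact Or.inl h
    · exact Or.inr (exists_block hmono (by rw [hK0]; exact h))
  refine ⟨fun i => (w i).1, fun i => (w i).2, ⟨?_, ?_⟩, ?_, ?_, ?_, ?_⟩
  · intro i hi
    show (w i).1 = u i
    rw [hw0 i hi]
  · intro i hi
    rcases hcov i with h | ⟨t, h1, h2⟩
    · omega
    · exact ((hP t).1 i h1 h2).1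
  · intro j
    obtain ⟨t, ht⟩ := hT (j, [])
    have := (hP t).2.1
    rw [ht] at this
    exact this
  · intro n
    rcases hcov n with h | ⟨t, h1, h2⟩
    · show c n ≤ (w n).2
      rw [hw0 n h]
      exact le_max_left _ _
    · exact ((hP t).1 n h1 h2).2.1
  · intro n hn
    rcases hcov n with h | ⟨t, h1, h2⟩
    · show e n ≤ (w n).2
      rw [hw0 n h]
      exact le_max_right _ _
    · exact ((hP t).1 n h1 h2).2.2 hn
  · intro j u' k
    obtain ⟨t, ht⟩ := hT (j, List.ofFn (fun i : Fin k => u' i))
    obtain ⟨y, hyD, hyu, hyc⟩ := (hP t).2.2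
    have hlen : (T t).2.length = k := by rw [ht]; simp
    rw [ht] at hyD
    refine ⟨y, hyD, ?_, ?_⟩
    · intro i hi
      rw [hyu i (by rw [hlen]; exact hi)]
      simp only [U]
      rw [ht]
      simp [List.getD_eq_getElem?_getD, hi]
    · intro i hi
      exact hyc i (by rw [hlen]; exact hi)

end Pool.Agent.E8helper73.Sch
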